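import Mathlib
import Pool.Agent.TH170.GS.Main
import Pool.Agent.TH170.GS.TB2
import Pool.Agent.Y1.KN.All
import Pool.Agent.Y1.KN.Use

/-!
# Semisimplicity of the Frobenius eigenvalue one on the `ℓ`-adic homology of the singular and open
varieties over finite fields generated by abelian varieties with almost all slope types of all CM
fields with few CM subfields, and of all CM fields whose degree has a large prime factor

Over an algebraic closure of the field with `p` elements each abelian variety is isogenous to the
reduction of an abelian variety of CM type (Honda, Tate). So an abelian variety over the field with
`p ^ a` elements is modelled by `RedAV`: a finite product of CM types `(E i, Φ i)` with Weil numbers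
`π i ∈ E i` that satisfy the formula of Shimura and Taniyama; its cohomology of degree `n`, with
coefficients in an algebraically closed field `Ω`, consists of the alternating `n`-forms on
`Ω ⊗ H_1`, on which the Frobenius endomorphism acts by `π`. We fix an isomorphism `ν` of the algebraic
closure of `ℚ_p` with `ℂ`; it defines a `p`-adic valuation of `ℂ`, with the value one at `p`.

Let `K` be a CM field of degree `2 g`; nothing is assumed about its Galois group. Let `M` be a
function with nonzero integral values on the complex embeddings of `K`, invariant under complex
conjugation. A CM type `Φ` of `K` (a choice of one element out of each complex conjugate pair of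
embeddings; there are `2 ^ g` types), `M` and a real number `κ ≠ 0` prescribe the slopes
`(a + κ M) / 2` (at the embeddings in `Φ`) and `(a - κ M) / 2` (outside of `Φ`) of a Weil number in
`K`. If `p` splits completely in `K` then, by Honda and Tate, all slopes with rational values between
`0` and `a` that are symmetric in this way occur for abelian varieties. The case `M = 1`, `κ = a` is
the ordinary case; the assumption on `M` says that `a / 2` is not a slope. Slopes are rational, so
integral weights `M` are no restriction.

Let `K i` be finitely many CM fields, of degrees `2 g i`, that are pairwise independent: for `i ≠ k`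
and all complex embeddings `φ` of `K i` and `ψ` of `K k` some automorphism of `ℂ` is the identity on
`φ (K i)` and the complex conjugation on `ψ (K k)` (this is no condition for one field). Let `M i`
be weights as above all of whose values divide `n i`. There are `2 ^ (∑ i, g i)` families of
CM types `Φ i` of the fields `K i`. For such a family let `𝒞` (`OfTypes`) be the class of the abelian
varieties `Y` each of whose factors is supersingular or has a Frobenius endomorphism some power of
which is, for some `i`, a Weil number in `K i` with the slopes prescribed by `Φ i`, `M i` and some
real number `κ i ≠ 0` (which depends only on `Y` and `i`). So `Y` is, over an algebraic closure,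
isogenous to a product of powers of one abelian variety for each `i`, with the given slopes, and of
a supersingular one.

`Homology Ω V` are data of motivic homology `M X i j = H_i^M(X, ℚ(j)) = CH_j(X, i - 2 j) ⊗ ℚ` and of
`ℓ`-adic homology `E X i j = H_i(X, ℚ_ℓ(j))` (coefficients extended to `Ω`) of schemes `X` of finite
type over a finite field (the elements of `V`), with the Frobenius and the regulator. For a family of
types let `𝒢` be the smallest class (`Generated`) of such schemes that contains those with the
homology groups of abelian varieties in `𝒞` (`IsAbelianOfTypes`), that is closed under direct summands
of finite sums of twists of motives, and that contains all of a closed subscheme `Z` of `X`, `X` and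
`X ∖ Z` if it contains two of them. It contains for instance all products of varieties in `𝒞`, all
products of curves with Jacobians in `𝒞` and of open subsets of such curves, symmetric powers of
them, and the singular and the open varieties with a stratification by such varieties.

Let `𝒮` (`Spread`) be the smallest class of schemes that contains `𝒢`, all open subschemes (with an
arbitrary complement) and all images under proper morphisms of its members, the schemes that are the
union of a closed and an open member, and the schemes whose motives are direct summands of sums of
twists of motives of members. For example it contains all varieties dominated by varieties in `𝒢`, all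
their open subvarieties, and all varieties with a stratification by such varieties. They may be
singular and not proper, and nothing is known about their motivic homology.

A family of types is exceptional (`exceptionalFamilies ν K M`) if one of the following fails (`Holds`):

* for all schemes `X` in `𝒮` and all `i` the statement `SS_i(X)` holds: the eigenvalue one of the
  Frobenius on `H_(2 i)(X, ℚ_ℓ(i))` is semisimple;
* for all schemes `X` in `𝒢` and all integers `a`, `b` the eigenvalue one of the Frobenius on
  `H_a(X, ℚ_ℓ(b))` is semisimple.

`HasWeights` consists of the vanishing of `H_n^M(X, ℚ(j)) = CH_j(X, n - 2 j) ⊗ ℚ` for `n < 2 j` and of the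
theorem of Deligne that the Frobenius has no eigenvalue one on `H_n(X, ℚ_ℓ(j))` for `n < 2 j`.

Properties of the theory of cycles that are used for the abelian varieties (`IsChow`,
`IsMotivic`): Poincaré duality, the formal properties of correspondences, the nilpotence of
homologically trivial correspondences (Kimura), the operation of the Frobenius endomorphism on higher
Chow groups, the vanishing of the higher rational `K`-groups of a finite field (Quillen), and the
algebraicity of the classes in `Alg` (of which only products of classes of divisors matter here,
theorem of Tate). The passage from the Tate conjecture to all degrees and to the class `Generated` is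
due to Soulé, Geisser, Kahn and Jannsen.

The theorem bounds the number of the exceptional families: it is at most
`2 ^ (∑ i, g i) * ∑ i, C * (n i) ^ 2 * rate (K i) (g i) (q i)`, with an absolute constant `C`. Here
`q i` is any prime factor of `g i` (or `q i = 1`), and `rate K g q` is `(1 + log (2 g)) ^ 16` times
the smaller of the numbers

* `W (K) / √g`, where (second part of the theorem, `WeightEstimate`) `W (K) ≤ N ^ 2 * D ^ (1 / 4)`;
  `N` is the number of the CM subfields of `K` (with `K`) and `D` is the largest degree of a CM
  subfield of `K` that is normal over `ℚ` with a nonabelian Galois group (`D = 1` if there are none);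
* `√g / q`.

So the exceptional types are a proportion `O (n ^ 2 * g ^ (-1 / 4) * (log g) ^ 16)` of all types of
all CM fields with a bounded number of CM subfields, and `O (n ^ 2 * g ^ (-1 / 2) * (log g) ^ 16)` if
the normal nonabelian ones have bounded degrees (for instance if `K` has no proper CM subfields and
is not normal). And they are a proportion `O (n ^ 2 * g ^ (-δ) * (log g) ^ 16)` of the types of all CM
fields `K`, with any number of subfields, whose degree is divisible by a prime number
`q ≥ g ^ (1 / 2 + δ)`; for small `δ` there are such primes for about `log 2`, that is 69%, of all
numbers `g`. Some assumption is necessary: a multiquadratic CM field of degree `2 g` has `g` imaginary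
quadratic subfields, and almost all of its types are degenerate. The bound of `AlmostAllSlopeTypes` is a
sum over the isotypic components of the odd part of the permutation representation. It contains the
logarithm of the order of the Galois group, and gives nothing if this order is large and some
components have high multiplicities. Here nothing is assumed about the Galois group and the
multiplicities.

The number `W (K)` (`subfieldWeight K`) is defined as follows. The automorphisms of `ℂ` act on the
rational functions on the set of the complex embeddings of `K` which change their sign under complex
conjugation. A field of definition (`fieldsOfDefinition K`) of an isotypic component of this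
representation is a smallest subfield `F` of `K` such that the values of the functions in the
component depend only on the restrictions of the embeddings to `F`. It is a CM field. Then `W (K)` is
the sum over these fields `F` of the number of the CM subfields of `F`, multiplied by
`[F : ℚ] ^ (1 / 4)` if `F` is normal over `ℚ` and its Galois group is not abelian.

The bound for the number of the types for which the relations between the Frobenius eigenvalues are
not generated by those of the complex conjugate pairs is a theorem of the starting files
(`Pool.Agent.Y1.KN`, MP_ee618e_ag AllCMFields, where it is applied to the Tate conjecture for these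
abelian varieties themselves).
-/

namespace Pool.Agent.Results.MP_16ef92_ag.AllCMFields

open NumberField Module Pool.Agent.H204R3.CM Pool.Agent.H977R3.CM Pool.Agent.TH170

open Pool.Agent Pool.Agent.W495.TA Pool.Agent.W495.FM

/-- `SS_i(X)` for all `i` and all schemes `X` in the class `Spread` of the schemes generated by abelian
varieties with the slope types `Φ`, and the semisimplicity of the eigenvalue one in all degrees and for
all twists for the generated schemes. -/
def Holds {p : ℕ} [Fact p.Prime] (ν : PadicAlgCl p ≃+* ℂ) {I : Type} (K : I → Type)
    [∀ i, Field (K i)] (M : ∀ i, (K i →+* ℂ) → ℤ) (Φ : ∀ i, Set (K i →+* ℂ)) : Prop :=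
  ∀ (Ω : Type) [Field Ω] [IsAlgClosed Ω] [CharZero Ω] (V : Type) (T : Homology Ω V),
    IsHomology T → HasWeights T →
      (∀ X : V, Spread T (Generated T (GS.IsAbelianOfTypes ν K M Φ T)) X →
        ∀ (i : ℤ) (e : T.E X (2 * i) i),
          T.frob X _ _ (T.frob X _ _ e - e) = T.frob X _ _ e - e → T.frob X _ _ e = e) ∧
      ∀ X : V, Generated T (GS.IsAbelianOfTypes ν K M Φ T) X → ∀ (a b : ℤ) (e : T.E X a b),
        T.frob X _ _ (T.frob X _ _ e - e) = T.frob X _ _ e - e → T.frob X _ _ e = e

/-- The exceptional families of CM types. -/
def exceptionalFamilies {p : ℕ} [Fact p.Prime] (ν : PadicAlgCl p ≃+* ℂ) {I : Type} (K : I → Type)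
    [∀ i, Field (K i)] (M : ∀ i, (K i →+* ℂ) → ℤ) : Set (∀ i, Set (K i →+* ℂ)) :=
  {Φ | (∀ i, IsCMType (Φ i)) ∧ ¬ Holds ν K M Φ}

theorem holds_of {p : ℕ} [Fact p.Prime] {ν : PadicAlgCl p ≃+* ℂ} {I : Type} (K : I → Type)
    [∀ i, Field (K i)] (M : ∀ i, (K i →+* ℂ) → ℤ) (Φ : ∀ i, Set (K i →+* ℂ))
    (h : ∀ Y : RedAV p ν, GS.OfTypes K M Φ Y → ∃ Z : RedAV p ν,
      TH117.BL.HasElementaryRelations Z ∧ TH117.BL.IsPowersTimesSupersingular Z Y) :
    Holds ν K M Φ := fun _ _ _ _ _ _ hT hW =>
  ⟨fun _ hX i => (GS.onto_types h hT hW hX i).2, fun _ hX a b => (GS.tb_types h hT hX a b).2.2⟩

/-- **The eigenvalue one of the Frobenius is semisimple** on the `ℓ`-adic homology of all varieties in the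
class `Spread` generated by abelian varieties with almost all slope types of all CM fields with few CM
subfields, and of all CM fields whose degree has a large prime factor. -/
theorem result :
    (∃ C : ℝ, 0 ≤ C ∧ ∀ (p : ℕ) [Fact p.Prime] (ν : PadicAlgCl p ≃+* ℂ) (I : Type) [Fintype I]
      (K : I → Type) [∀ i, Field (K i)] [∀ i, NumberField (K i)] [∀ i, IsCMField (K i)]
      (M : ∀ i, (K i →+* ℂ) → ℤ) (n g q : I → ℕ), PairwiseIndep K →
      (∀ i φ, M i (ComplexEmbedding.conjugate φ) = M i φ) → (∀ i, n i ≠ 0) →
      (∀ i φ, M i φ ∣ (n i : ℤ)) → (∀ i, finrank ℚ (K i) = 2 * g i) →
      (∀ i, q i ∣ g i ∧ (q i = 1 ∨ (q i).Prime)) →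
      ((exceptionalFamilies ν K M).ncard : ℝ) ≤
        2 ^ (∑ i, g i) * ∑ i, C * (n i : ℝ) ^ 2 * Y1.KN.rate (K i) (g i) (q i)) ∧
    Y1.KN.WeightEstimate := by
  obtain ⟨C, hC0, hC⟩ := Y1.KN.slope Y1.KN.families_holds
  refine ⟨⟨C, hC0, ?_⟩, Y1.KN.weight_estimate_holds⟩
  intro p _ ν I _ K _ _ _ M n g q hind hM hn hMn hg hq
  exact hC p ν I K M n g q hind hM hn hMn hg hq _ fun Φ h => holds_of K M Φ h

end Pool.Agent.Results.MP_16ef92_ag.AllCMFields
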