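import Pool.Agent.H313.GE.Smp

/-!
# Semisimplicity of the eigenvalue one for families over abelian coverings, over all extensions

Let `k` be a field with `q` elements, `Z` the smooth projective variety over `k` of dimension `n` with
the equations `G i = 0`, `ℓ` a prime, `F i` (`i < m`) forms of degrees divisible by `ℓ ^ (a i)`, such
that their divisors `D i` on `Z` are smooth and ample with normal crossings, and `χ i` characters of the
multiplicative group of `k` of the orders `ℓ ^ (a i)` (which divide `q - 1`). Let `V → Z` be a family of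
varieties: smooth and projective over `Z`, or `V = Z × Y` with an arbitrary variety `Y` (singular, not
proper). For an extension `k'` of `k` with `q'` elements and `v = (v i)`, `v i` not zero in `k'`, let
`Z_v` be the covering `w_i ^ (ℓ ^ (a i)) = v i F_i` (`i < m`) of `Z` over `k'`, or its open subset
where the `F_i`, `i ∈ J`, are not zero, and `X_v` the inverse image of the family, that is the fibre
product of `V` and `Z_v` over `Z`.

For `j = (j i)`, `0 ≤ j i < ℓ ^ (a i)`, let `I(j)` be the set of the `i` with `j i ≠ 0`, and `L_j` the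
tensor product over `i ∈ I(j)` of the Kummer sheaves of the characters `χ i ^ (j i)` for `F i`, on the
open subset `U_j` of `Z` where the `F i`, `i ∈ I(j) ∪ J`, are not zero. Let `S_b` be the `b`-th direct image
with proper support of the constant sheaf for `V → Z`, with the coefficients in an algebraic closure `E`
of the `ℓ'`-adic numbers, `ℓ'` any prime different from the characteristic. Its polynomial at a closed
point `z` is `P z`. For `I(j)` not empty let `U j` be the group `H ^ n_c (U_j, S_b ⊗ L_j)`; the other
groups `H ^ d_c (U_j, S_b ⊗ L_j)` are zero, and `det (1 - T Φ_j)` for the Frobenius `Φ_j` of `k` on `U j` is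
the product `twistedProduct`, or its inverse if `n` is odd. The cohomology `H ^ (n + b)_c (X_v)` with
compact support over the algebraic closure is the direct sum of these `U j` and of the part of the open
subset of `Z`, where the `F_i`, `i ∈ J`, are not zero, for `j = 0`; the Frobenius of `k'` is
`χ_j(N v) (Φ_j) ^ r` on `U j`, where `r` is the degree of `k'` and `χ_j(N v)` the product of the
`(χ i ^ (j i)) (N (v i))` with the norm `N` from `k'` to `k`. The homology `H_(n + b)` of the problem is
dual to it, and `SS_c` is the semisimplicity of the eigenvalue `q' ^ c`, for `n + b = 2 c`.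
-/

set_option autoImplicit false
set_option linter.all false
set_option maxHeartbeats 4000000

open Polynomial NumberField Module

namespace Pool.Agent.Results.MP_16ef92_ag.AllExtensionsAndTwists

open Pool.Agent.H313.GE.Pts

/-- The set of the `i` with `j i ≠ 0`. -/
def supp {m : ℕ} {N : Fin m → ℕ} (j : ∀ i, Fin (N i)) : Finset (Fin m) :=
  Finset.univ.filter fun i => (j i : ℕ) ≠ 0

/-- `W` is not divisible by the square of a cyclotomic polynomial `Φ_N` with `N` prime to `ℓ`. -/
def NoDoubleCyclotomic (ℓ : ℕ) (W : (ZMod ℓ)[X]) : Prop :=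
  ∀ N : ℕ, 0 < N → ¬ ℓ ∣ N → ¬ cyclotomic N (ZMod ℓ) ^ 2 ∣ W

/-- The eigenvalue `Q` of `f` is semisimple. -/
def IsSemisimpleEigenvalue {E V : Type} [Field E] [AddCommGroup V] [Module E V]
    (f : Module.End E V) (Q : E) : Prop :=
  ∀ x : V, ((f - algebraMap E (Module.End E V) Q) ^ 2) x = 0 →
    (f - algebraMap E (Module.End E V) Q) x = 0

/-- The product `χ_j(N v)` of the values of the characters `χ i ^ (j i)` at the norms of the `v i`. -/
noncomputable def twist {k A : Type} [Field k] [CommRing A] {m : ℕ} {N : Fin m → ℕ}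
    (χ : Fin m → MulChar k A) (j : ∀ i, Fin (N i)) {k' : Type} [Field k'] [Algebra k k']
    (v : Fin m → k'ˣ) : A :=
  ∏ i, (χ i ^ (j i : ℕ)) (Algebra.norm k (v i : k'))

/-- **Semisimplicity of the eigenvalue one for families over abelian coverings, over all
extensions.**

For every nonempty set `I` of indices let the product of the factors `P z (T ^ (deg z))` over the closed
points `z` of `Z` at which the `F i`, `i ∈ I ∪ J`, are not zero, or its inverse if `n` is odd, be modulo
`ℓ` a polynomial `H I` which is not divisible by the square of a cyclotomic polynomial `Φ_N` with `N`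
prime to `ℓ`. Then for all finite extensions `k'` of `k`, with `q'` elements, for all `v` and for all
`c`: if the eigenvalue `q' ^ c` is semisimple on the part `j = 0` of the cohomology of the base, it is
semisimple on the cohomology of `X_v`.

So `SS_c` for `X_v` follows for all `k'` and all `v` from `SS_c` for `V` (or for its open subset where the
`F_i`, `i ∈ J`, are not zero) over `k'`, from finitely many polynomials over the prime field with `ℓ`
elements; they do not depend on the exponents `a i`, on `k'`, on `v` and on the prime `ℓ'`. The full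
polynomial `Φ_N` is meant, not one of its factors modulo `ℓ`. -/
theorem result (ℓ : ℕ) (hℓ : ℓ.Prime) (k : Type) [Field k] [Finite k]
    (K : Type) [Field K] [NumberField K] (M s m n : ℕ)
    (G : Fin s → MvPolynomial (Fin (M + 1)) k) (F : Fin m → MvPolynomial (Fin (M + 1)) k)
    (P : Pt G → ℤ[X]) (hP : ∀ z, (P z).coeff 0 = 1)
    (a : Fin m → ℕ) (χ : Fin m → MulChar k (𝓞 K)) (hχ : ∀ i, orderOf (χ i) = ℓ ^ a i)
    (J : Finset (Fin m)) (E : Type) [Field E] [CharZero E] [IsAlgClosed E] (φ : 𝓞 K →+* E)
    (U : (∀ i, Fin (ℓ ^ a i)) → Type) [∀ j, AddCommGroup (U j)] [∀ j, Module E (U j)]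
    [∀ j, FiniteDimensional E (U j)] (Φ : ∀ j, Module.End E (U j))
    (hΦ : ∀ j, (supp j).Nonempty → ∃ D : (𝓞 K)[X],
      IsSigned n (twistedProduct G F P (fun i => χ i ^ (j i : ℕ)) (supp j ∪ J)) D ∧
      IsDet φ (Φ j) D)
    (H : Finset (Fin m) → (ZMod ℓ)[X])
    (hH : ∀ I : Finset (Fin m), I.Nonempty → IsSigned n
      (PowerSeries.map (Int.castRingHom (ZMod ℓ)) (openProduct G F P (I ∪ J))) (H I))
    (hno : ∀ I : Finset (Fin m), I.Nonempty → NoDoubleCyclotomic ℓ (H I))
    (k' : Type) [Field k'] [Finite k'] [Algebra k k'] (v : Fin m → k'ˣ) (c : ℕ)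
    (h0 : ∀ j, ¬ (supp j).Nonempty →
      IsSemisimpleEigenvalue (Φ j ^ finrank k k') ((Nat.card k' : E) ^ c)) :
    IsSemisimpleEigenvalue
      (LinearMap.pi fun j => (φ (twist χ j v) • Φ j ^ finrank k k') ∘ₗ LinearMap.proj j :
        Module.End E (∀ j, U j)) ((Nat.card k' : E) ^ c) := by
  classical
  have hF : Fact ℓ.Prime := ⟨hℓ⟩
  have hr : 0 < finrank k k' := Module.finrank_pos
  have hone : ∀ i, χ i ^ ℓ ^ a i = 1 := fun i => by rw [← hχ i, pow_orderOf_eq_one]
  have key := Pool.Agent.H313.GE.ssAt_pi (fun j => φ (twist χ j v) • Φ j ^ finrank k k')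
    (LinearMap.pi fun j => (φ (twist χ j v) • Φ j ^ finrank k k') ∘ₗ LinearMap.proj j :
        Module.End E (∀ j, U j)) (fun x j => rfl) ((Nat.card k' : E) ^ c) 1 fun j => ?_
  · rw [pow_one] at key
    exact key
  · rw [pow_one]
    by_cases hj : (supp j).Nonempty
    · obtain ⟨D, hDs, hD⟩ := hΦ j hj
      have hψ : ∀ i ∈ supp j ∪ J, (χ i ^ (j i : ℕ)) ^ ℓ ^ a i = 1 := by
        intro i _
        rw [← pow_mul, mul_comm, pow_mul, hone i, one_pow]
      obtain ⟨hD0, hmod⟩ := twisted_mod G F P hP (fun i => χ i ^ (j i : ℕ)) (supp j ∪ J) a hψ hDs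
        (hH _ hj)
      obtain ⟨i, hi⟩ := hj
      have hai : a i ≠ 0 := by
        intro h1
        have h2 := (j i).2
        have h3 : (j i : ℕ) ≠ 0 := (Finset.mem_filter.1 hi).2
        have h4 : ℓ ^ a i = 1 := by rw [h1, pow_zero]
        omega
      have hdk : ℓ ∣ Nat.card k - 1 :=
        (dvd_pow_self ℓ hai).trans (Pool.Agent.TH639.CK.card_dvd (hχ i))
      have hk1 : (Nat.card k : ZMod ℓ) = 1 := by
        have h1 : 1 ≤ Nat.card k := Nat.card_pos
        have h2 : ((Nat.card k - 1 : ℕ) : ZMod ℓ) = 0 := (ZMod.natCast_eq_zero_iff _ _).2 hdk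
        rw [Nat.cast_sub h1, Nat.cast_one, sub_eq_zero] at h2
        exact h2
      have htw : φ (twist χ j v) ^ (∏ i, ℓ ^ a i) = 1 := by
        rw [← map_pow]
        have h1 : twist χ j v ^ (∏ i, ℓ ^ a i) = 1 := by
          rw [twist, ← Finset.prod_pow]
          refine Finset.prod_eq_one fun i _ => ?_
          obtain ⟨d, hd⟩ := Finset.dvd_prod_of_mem (fun i => ℓ ^ a i) (Finset.mem_univ i)
          rw [hd, pow_mul, ← MulChar.pow_apply' _ (pow_ne_zero _ hℓ.ne_zero), ← pow_mul, mul_comm,
            pow_mul, hone i, one_pow, MulChar.one_apply ((v i).isUnit.map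
              (Algebra.norm k (S := k'))), one_pow]
        rw [h1, map_one]
      have hcard : (Nat.card k' : E) ^ c = ((Nat.card k : ℕ) : E) ^ (finrank k k' * c) := by
        rw [Module.natCard_eq_pow_finrank (K := k) (V := k'), Nat.cast_pow, ← pow_mul]
      have h1 := Pool.Agent.H313.GE.ss_geo φ hD0 (Φ j) hD Nat.card_pos.ne' hk1
        (hno _ ⟨i, hi⟩) hmod (Finset.prod_pos fun i _ => pow_pos hℓ.pos _) htw hr c
      rw [← hcard] at h1
      exact h1
    · have h1 : twist χ j v = 1 := by
        rw [twist]
        refine Finset.prod_eq_one fun i _ => ?_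
        have h2 : (j i : ℕ) = 0 := by
          by_contra h3
          exact hj ⟨i, Finset.mem_filter.2 ⟨Finset.mem_univ i, h3⟩⟩
        rw [h2, pow_zero]
        exact MulChar.one_apply ((v i).isUnit.map (Algebra.norm k (S := k')))
      rw [h1, map_one, one_smul]
      exact h0 j hj

end Pool.Agent.Results.MP_16ef92_ag.AllExtensionsAndTwists
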