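import Pool.Agent.H313.GE.Sim

/-!
# Semisimplicity of the eigenvalue one for the products of abelian coverings with all varieties

Let `k` be a field with `q` elements, `Z` the smooth projective variety over `k` of dimension `n` with
the equations `G i = 0`, `ℓ` a prime, `F i` (`i < m`) forms of degrees divisible by `ℓ ^ (a i)`, such
that their divisors `D i` on `Z` are smooth and ample with normal crossings, `χ i` characters of the
multiplicative group of `k` of the orders `ℓ ^ (a i)` (which divide `q - 1`), and `X → Z` the covering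
`w_i ^ (ℓ ^ (a i)) = F i` (`i < m`), with the group `∏ μ_(ℓ ^ (a i))`. Let `Y` be an arbitrary variety
over `k`: it may be singular and not proper, and Frobenius need not be semisimple on its cohomology.

For `j = (j i)`, `0 ≤ j i < ℓ ^ (a i)`, let `I(j)` be the set of the `i` with `j i ≠ 0`, and `L_j` the
tensor product over `i ∈ I(j)` of the Kummer sheaves of the characters `χ i ^ (j i)` for `F i`, on the
open subset `U_j` of `Z` where these `F i` are not zero. Then the cohomology of `X` (with coefficients
in an algebraic closure `E` of the `ℓ'`-adic numbers, `ℓ'` any prime different from the characteristic)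
is the direct sum of the cohomology of `Z` and of the spaces `V_j = H ^ n_c (U_j, L_j)` for `I(j)` not
empty; the other groups `H ^ d_c (U_j, L_j)` are zero, and `det (1 - T Frob)` on `V_j` is the product
`kummerProduct`, or its inverse if `n` is odd. So `H ^ (2 c)_c (X × Y)` is the direct sum of the
`U j = V_j ⊗ H ^ (2 c - n)_c (Y)`, `I(j)` not empty, and of `U 0 = H ^ (2 c)_c (Z × Y)`. Its dual is the
homology `H_(2 c)` of `X × Y`, and `SS_c` for `X × Y` over the extension of `k` of degree `r` is the
semisimplicity of the eigenvalue `q ^ (c r)` of the `r`-th power of Frobenius.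
-/

set_option autoImplicit false
set_option linter.all false
set_option maxHeartbeats 4000000

open Polynomial NumberField Module

namespace Pool.Agent.Results.MP_16ef92_ag.CoveringsTimesAnyVariety

open Pool.Agent.H313.GE.Pts

/-- The set of the `i` with `j i ≠ 0`. -/
def supp {m : ℕ} {N : Fin m → ℕ} (j : ∀ i, Fin (N i)) : Finset (Fin m) :=
  Finset.univ.filter fun i => (j i : ℕ) ≠ 0

/-- The polynomial `∏ Q(b T)`, `b ∈ B`: if the reciprocal zeros of `Q` are the `α`, the ones of this
polynomial are the `α b`. -/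
noncomputable def tensor {A : Type} [CommRing A] (B : Multiset A) (Q : A[X]) : A[X] :=
  (B.map fun b => Q.comp (C b * X)).prod

/-- `W₁ / W₂` is modulo `ℓ` a polynomial which has only simple zeros among the roots of unity of the
order `r`, in an algebraic closure of the field with `ℓ` elements: it is not divisible by the square of
an irreducible factor of `T ^ r - 1`. For `r = 1`: at `T = 1` it has at most a simple zero. -/
def SimpleZeros (ℓ r : ℕ) (W₁ W₂ : ℤ[X]) : Prop :=
  ∃ W : (ZMod ℓ)[X], W₁.map (Int.castRingHom (ZMod ℓ)) = W₂.map (Int.castRingHom (ZMod ℓ)) * W ∧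
    ∀ π : (ZMod ℓ)[X], Irreducible π → π ∣ X ^ r - 1 → ¬ π ^ 2 ∣ W

/-- The eigenvalue `Q` of `f` is semisimple. -/
def IsSemisimpleEigenvalue {E V : Type} [Field E] [AddCommGroup V] [Module E V]
    (f : Module.End E V) (Q : E) : Prop :=
  ∀ x : V, ((f - algebraMap E (Module.End E V) Q) ^ 2) x = 0 →
    (f - algebraMap E (Module.End E V) Q) x = 0

/-- **Semisimplicity of the eigenvalue one for the products of abelian coverings with all varieties.**

Let `B` be the multiset of the eigenvalues of Frobenius on `H ^ (2 c - n)_c (Y)`. For every nonempty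
set `I = I(j)` let `L₁ / L₂` be the inverse of the zeta function of the open subset of `Z` where the
`F i`, `i ∈ I`, are not zero, or the zeta function if `n` is odd; and let `W₁`, `W₂` be the polynomials
whose reciprocal zeros are the products of those of `L₁`, `L₂` and of the numbers in `B`. If `W₁ / W₂` is
modulo `ℓ` a polynomial which has only simple zeros among the roots of unity of the order `r`, for all
`I`, then `SS_c` holds for `X × Y` over the extension of degree `r` of `k` if it holds for `Z × Y`.

For `r = 1` the only condition is that `W₁ / W₂` modulo `ℓ` has at most a simple zero at `T = 1`, for all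
`I`. It does not depend on the exponents `a i`, on the twists of the covering and on the prime `ℓ'`.
Example: `Z = ℙ ^ 2`, `Y` a point, `c = 1`, `m = 1`: `ℓ` does not divide the order of the group of the
rational points of the Jacobian of the curve `F = 0`. -/
theorem result (ℓ : ℕ) (hℓ : ℓ.Prime) (k : Type) [Field k] [Finite k]
    (K : Type) [Field K] [NumberField K] (M s m n : ℕ)
    (G : Fin s → MvPolynomial (Fin (M + 1)) k) (F : Fin m → MvPolynomial (Fin (M + 1)) k)
    (a : Fin m → ℕ) (χ : Fin m → MulChar k (𝓞 K)) (hχ : ∀ i, orderOf (χ i) = ℓ ^ a i)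
    (B : Multiset (𝓞 K)) (E : Type) [Field E] [CharZero E] [IsAlgClosed E] (φ : 𝓞 K →+* E)
    (U : (∀ i, Fin (ℓ ^ a i)) → Type) [∀ j, AddCommGroup (U j)] [∀ j, Module E (U j)]
    [∀ j, FiniteDimensional E (U j)] (Φ : ∀ j, Module.End E (U j))
    (hΦ : ∀ j, (supp j).Nonempty → ∃ D : (𝓞 K)[X],
      IsSigned n (kummerProduct G F (fun i => χ i ^ (j i : ℕ)) (supp j)) D ∧
      IsDet φ (Φ j) (tensor B D))
    (r : ℕ) (hr : 0 < r) (c : ℕ)
    (hI : ∀ j : (∀ i, Fin (ℓ ^ a i)), (supp j).Nonempty → ∃ L₁ L₂ W₁ W₂ : ℤ[X],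
      IsSignedQuotient n (openZetaInv G F (supp j)) L₁ L₂ ∧ IsTensor B L₁ W₁ ∧
      IsTensor B L₂ W₂ ∧ SimpleZeros ℓ r W₁ W₂)
    (h0 : ∀ j, ¬ (supp j).Nonempty →
      IsSemisimpleEigenvalue (Φ j ^ r) ((Nat.card k : E) ^ (c * r))) :
    IsSemisimpleEigenvalue
      ((LinearMap.pi fun j => Φ j ∘ₗ LinearMap.proj j : Module.End E (∀ j, U j)) ^ r)
      ((Nat.card k : E) ^ (c * r)) := by
  have hF : Fact ℓ.Prime := ⟨hℓ⟩
  refine Pool.Agent.H313.GE.ssAt_pi Φ _ (fun x j => rfl) _ r fun j => ?_
  by_cases hj : (supp j).Nonempty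
  · obtain ⟨D, hDs, hD⟩ := hΦ j hj
    obtain ⟨L₁, L₂, W₁, W₂, hL, hW₁, hW₂, W, hW, hWr⟩ := hI j hj
    have hψ : ∀ i ∈ supp j, (χ i ^ (j i : ℕ)) ^ ℓ ^ a i = 1 := by
      intro i _
      have h1 : χ i ^ ℓ ^ a i = 1 := by rw [← hχ i, pow_orderOf_eq_one]
      rw [← pow_mul, mul_comm, pow_mul, h1, one_pow]
    obtain ⟨i, hi⟩ := hj
    have hai : a i ≠ 0 := by
      intro h1
      have h2 := (j i).2
      have h3 : (j i : ℕ) ≠ 0 := (Finset.mem_filter.1 hi).2
      have h4 : ℓ ^ a i = 1 := by rw [h1, pow_zero]
      omega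
    have hdk : ℓ ∣ Nat.card k - 1 :=
      (dvd_pow_self ℓ hai).trans (Pool.Agent.TH639.CK.card_dvd (hχ i))
    have hk1 : (Nat.card k : ZMod ℓ) = 1 := by
      have h1 : 1 ≤ Nat.card k := Nat.card_pos
      have h2 : ((Nat.card k - 1 : ℕ) : ZMod ℓ) = 0 := (ZMod.natCast_eq_zero_iff _ _).2 hdk
      rw [Nat.cast_sub h1, Nat.cast_one, sub_eq_zero] at h2
      exact h2
    have h1 := kummer_ss G F (fun i => χ i ^ (j i : ℕ)) (supp j) a hψ hDs hL hW₁ hW₂ hW hr hWr φ
      (Φ j) hD (Q := Nat.card k ^ (c * r)) (by rw [Nat.cast_pow, hk1, one_pow])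
    rw [Nat.cast_pow] at h1
    exact h1
  · exact h0 j hj

end Pool.Agent.Results.MP_16ef92_ag.CoveringsTimesAnyVariety
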