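import Pool.Agent.X303.Five
import Pool.Agent.TH170.GS.TB2

/-!
# Semisimplicity of the Frobenius eigenvalue one on the `ℓ`-adic homology of the singular and open
varieties over finite fields generated by abelian varieties of dimension at most five and by products
of elliptic curves and abelian surfaces

Over an algebraic closure of the field with `p` elements each abelian variety is isogenous to the
reduction of an abelian variety of CM type (Honda, Tate). So an abelian variety over the field with
`p ^ a` elements is modelled by `RedAV`: a finite product of CM types `(E i, Φ i)` with Weil numbers
`π i ∈ E i` that satisfy the formula of Shimura and Taniyama; its cohomology of degree `n`, with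
coefficients in an algebraically closed field `Ω`, consists of the alternating `n`-forms on
`Ω ⊗ H_1`, on which the Frobenius endomorphism acts by `π`.

We consider (`IsFiveOrSurfaces`) the following abelian varieties `Y`, with any Newton polygons: **all
abelian varieties of dimension at most five**, and **all products of elliptic curves and abelian
surfaces** (over an algebraic closure and up to isogeny).

`Homology Ω V` are data of motivic homology `M X i j = H_i^M(X, ℚ(j))` (higher Chow groups) and of
`ℓ`-adic homology `E X i j = H_i(X, ℚ_ℓ(j))` (coefficients extended to `Ω`) of schemes `X` over a
finite field, with the Frobenius and the regulator. The class `Generated` contains the schemes with the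
homology groups of the abelian varieties above (`IsFiveOrSurfaces`), it contains the schemes whose motives
are direct summands of finite sums of twists of motives of members, and it contains all of `Z`, `X`,
`U = X ∖ Z` if it contains two of them. For instance it contains all products of curves of genus at
most two, their symmetric powers, the Hilbert schemes of points on products of two such curves and on
abelian and Kummer surfaces, projective and flag bundles over such varieties, blow-ups, and so on.

Let `𝒮` (`Spread`) be the smallest class of schemes that contains `Generated`, all open subschemes (with an
arbitrary complement) and all images under proper morphisms of its members, the schemes that are the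
union of a closed and an open member, and the schemes whose motives are direct summands of sums of
twists of motives of members. For example it contains all varieties dominated by varieties in `Generated`, all
their open subvarieties, and all varieties with a stratification by such varieties. They may be
singular and not proper, and nothing is known about their motivic homology.

The theorem:

* for all schemes `X` in `𝒮` and all `i` the statement `SS_i(X)` holds: the eigenvalue one of the
  Frobenius on `H_(2 i)(X, ℚ_ℓ(i))` is semisimple;
* for all schemes `X` in `Generated` and all integers `a`, `b` the eigenvalue one of the Frobenius on
  `H_a(X, ℚ_ℓ(b))` is semisimple.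

`HasWeights` consists of the vanishing of `H_n^M(X, ℚ(j)) = CH_j(X, n - 2 j) ⊗ ℚ` for `n < 2 j` and of the
theorem of Deligne that the Frobenius has no eigenvalue one on `H_n(X, ℚ_ℓ(j))` for `n < 2 j`.

Properties of the theory of cycles that are used for the abelian varieties `Y` (`IsChowS`,
`IsMotivic`): Poincaré duality, the formal properties of correspondences, the nilpotence of
homologically trivial correspondences (Kimura), the operation of the Frobenius endomorphism on higher
Chow groups, the vanishing of the higher rational `K`-groups of a finite field (Quillen), and the
algebraicity of the classes in `AlgS` (theorems of Tate, Markman and Ramón Marí). The Tate conjecture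
for the abelian varieties `Y` (all Tate classes belong to `AlgS`) is proved in the starting files. The
passage from the Tate conjecture to all degrees is due to Soulé, Geisser, Kahn and Jannsen.
-/

set_option autoImplicit false

namespace Pool.Agent.Results.MP_16ef92_ag.FiveAndSurfaces

open Pool.Agent.W495.TA Pool.Agent.W495.FM Pool.Agent.X303.TBDual

/-- `SS_i(X)` for all `i` and all schemes `X` in the class `Spread` of the schemes generated by these
abelian varieties, and the semisimplicity of the eigenvalue one in all degrees and for all twists for
the generated schemes. -/
theorem result (p : ℕ) [Fact p.Prime] (ν : PadicAlgCl p ≃+* ℂ) (Ω : Type) [Field Ω]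
    [IsAlgClosed Ω] [CharZero Ω] (V : Type) (T : Homology Ω V) (hT : IsHomology T)
    (hW : HasWeights T) :
    (∀ X : V, Spread T (Generated T (IsFiveOrSurfaces p ν T)) X →
      ∀ (i : ℤ) (e : T.E X (2 * i) i),
        T.frob X _ _ (T.frob X _ _ e - e) = T.frob X _ _ e - e → T.frob X _ _ e = e) ∧
    ∀ X : V, Generated T (IsFiveOrSurfaces p ν T) X → ∀ (a b : ℤ) (e : T.E X a b),
      T.frob X _ _ (T.frob X _ _ e - e) = T.frob X _ _ e - e → T.frob X _ _ e = e :=
  ⟨fun _ hX i => (onto_spread hT hW (fun _ h1 i => ((tb_five hT h1).iso hT i).1) hX i).2,
    fun _ hX a b => (tb_five hT hX a b).2.2⟩

end Pool.Agent.Results.MP_16ef92_ag.FiveAndSurfaces
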